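import Pool.Agent.U536.CF.F
import Pool.Agent.Results.MP_3bd889_lc.AlmostAllOrders

/-!
# Chromatic number and rank for symmetric graphs of orders near integers with a large common factor with a value of a
multiplicative function

Let `f` be a positive multiplicative function of at most polynomial growth such that `f p ≤ M p` for the large primes `p`,
with different values at different large primes; for example Euler's function or the sum of the divisors. Let `G` have
steps bounded below by a positive constant and growth at most `v^d`, for example `α v^d`. Let `A ≥ 2`, `b < 1` and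
`0 ≤ c < 2 b - 1`. For all `m ≤ N` but `N exp (-(log N)^c)`, for ALL twin-free graphs `H` of rank `r > 1` and ALL groups `Γ` of
automorphisms of `H` such that the size of every orbit of `Γ` on the vertices is an integer `n` with `|n - G w| ≤ w ^ κ` for an
integer `w ≥ exp ((log N)^b)` with `gcd(w, f(m)) ≥ w^ρ`, one has `log χ(H) ≤ log |V| ≤ log t + (r + 1)^(1/A)`, `t` the number of the
orbits; and the same for the edge-transitive connected graphs whose number of edges is such an integer, if `κ ≥ 0` and
`d (1 - 1/A) + κ < ρ ≤ 1`. The integers `w` include all large divisors of `f(m)` and their multiples by small integers; for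
Euler's function, the orders of the elements of the group of units modulo `m`.

Proof. Write `m = k u` with `u` squarefree and composed of primes larger than `N^(1/J)`, `J = (log N)^a`, and
`k ≤ exp (4 (log N)^a)`; this is possible for all `m ≤ N` but very few. If `v ∣ f(k) f(u)`, then `v = g v'` with `g ∣ f(k)` and
`v' ∣ ∏ f(p)`, and the number of such `u ≤ N / k` is at most `N / (k v')` times `(log N)^O(J)` times the number `τ_J(v')` of the
ordered factorizations of `v'` into `J` factors. The inequality `τ_J^q ≤ τ_K` for `K ≥ J^q` and Hölder's inequality bound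
the sum over the sparse set of the exceptional `v`. The exceptional orders are those of the theorem `AlmostAllOrders` of this page in the starting library (orders
without prime factors larger than a power of their logarithm); the large divisors of the values of multiplicative functions
form a set of density zero and are taken with very large multiplicities, and so the theorem does not follow from the count
of the exceptional orders alone.
-/

set_option autoImplicit false

namespace Pool.Agent.Results.MP_3bd889_lc.CommonFactors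

open Finset
open Pool.Agent.N733.TG (LM Expanding lm_totient lm_sigma expanding_pow)
open Pool.Agent.U536.CF (Common common_win_nat common_of_dvd common_order)
open Pool.Agent.Results.MP_3bd889_lc.AlmostAllOrders (TwinFree EdgeTransitive Exceptional count)

/-- `n` is within `w ^ κ` of `G w` for an integer `w ≥ exp ((log N)^b)` with `gcd(w, f m) ≥ w^ρ` -/
def Near (f : ℕ → ℕ) (G : ℕ → ℝ) (κ b ρ : ℝ) (N m n : ℕ) : Prop :=
  ∃ w : ℕ, Common f b ρ N m w ∧ |(n : ℝ) - G w| ≤ (w : ℝ) ^ κ

/-- For every twin-free graph `H` of rank `r > 1`: if `Γ` is any group of automorphisms of `H` with `t` orbits on the vertices, all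
of sizes `n` with `Near`, then `log χ(H) ≤ log |V| ≤ log t + B r`; if `H` is connected and edge-transitive and its number `n` of
edges has `Near`, then `log χ(H) ≤ log |V| ≤ log 2 + B r`. -/
def Bounded (f : ℕ → ℕ) (G : ℕ → ℝ) (κ b ρ : ℝ) (N m : ℕ) (B : ℝ → ℝ) : Prop :=
  ∀ (V : Type) [Fintype V] (H : SimpleGraph V) [DecidableRel H.Adj], TwinFree H → 1 < (H.adjMatrix ℝ).rank →
    (∀ Γ : Subgroup (H ≃g H), (∀ v : V, Near f G κ b ρ N m (Nat.card (MulAction.orbit Γ v))) →
      Real.log (H.chromaticNumber.toNat : ℝ) ≤ Real.log (Fintype.card V : ℝ) ∧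
      Real.log (Fintype.card V : ℝ) ≤
        Real.log (Nat.card (MulAction.orbitRel.Quotient Γ V) : ℝ) + B (H.adjMatrix ℝ).rank) ∧
    (H.Connected → EdgeTransitive H → Near f G κ b ρ N m (Nat.card H.edgeSet) →
      Real.log (H.chromaticNumber.toNat : ℝ) ≤ Real.log (Fintype.card V : ℝ) ∧
      Real.log (Fintype.card V : ℝ) ≤ Real.log 2 + B (H.adjMatrix ℝ).rank)

/-- **Chromatic number and rank for symmetric graphs of orders near integers with a large common factor with a value of a
multiplicative function.** Let `A ≥ 2`, let `f` be multiplicative and positive, of at most polynomial growth, with `f p ≤ M p` at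
the large primes, and injective there. Let `G` have steps `≥ a > 0` and growth at most `v^d`. Let `b < 1` and `0 ≤ c < 2 b - 1`,
`κ ≥ 0` and `d (1 - 1/A) + κ < ρ ≤ 1`. For all large `N`, for all `m ≤ N` but `N exp (-(log N)^c)`, for ALL twin-free graphs of
rank `r > 1`: `log χ ≤ log |V| ≤ log t + (r + 1)^(1/A)` if some group of automorphisms has `t` orbits on the vertices, with sizes
`n` such that `|n - G w| ≤ w ^ κ` for integers `w ≥ exp ((log N)^b)` (which may be different for different orbits) with
`gcd(w, f(m)) ≥ w^ρ`; and `log χ ≤ log |V| ≤ log 2 + (r + 1)^(1/A)` if the graph is connected and edge-transitive and its number of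
edges is such an `n`. All divisors `w ≥ exp ((log N)^b)` of `f(m)` are such integers `w`, and for Euler's function the orders
`≥ exp ((log N)^b)` of the units modulo `m`. Euler's function and the sum of the divisors are examples of `f`, and `α v^d` with
`α > 0`, `d ≥ 1` is an example of `G`. -/
theorem result :
    (∀ A : ℝ, 2 ≤ A → ∀ f : ℕ → ℕ, LM f → ∀ (G : ℕ → ℝ) (d : ℝ), Expanding G d → ∀ κ ρ b c : ℝ, 0 ≤ κ →
      d * (1 - 1 / A) + κ < ρ → ρ ≤ 1 → b < 1 → 0 ≤ c → c < 2 * b - 1 → ∃ N₀ : ℕ, ∀ N : ℕ, N₀ ≤ N →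
        ({m : ℕ | 1 ≤ m ∧ m ≤ N ∧ ¬ Bounded f G κ b ρ N m (fun r => (r + 1) ^ (1 / A))}.ncard : ℝ) ≤
          N * Real.exp (-(Real.log N ^ c))) ∧
    (LM Nat.totient ∧ LM (fun m => ∑ d ∈ m.divisors, d)) ∧
    (∀ α d : ℝ, 0 < α → 1 ≤ d → Expanding (fun v => α * (v : ℝ) ^ d) d) ∧
    (∀ (f : ℕ → ℕ) (b ρ : ℝ) (N m w : ℕ), ρ ≤ 1 → Real.exp (Real.log N ^ b) ≤ (w : ℝ) → w ∣ f m → Common f b ρ N m w) ∧
    ∀ (b ρ : ℝ) (N m : ℕ), ρ ≤ 1 → ∀ x : (ZMod m)ˣ, Real.exp (Real.log N ^ b) ≤ (orderOf x : ℝ) →
      Common Nat.totient b ρ N m (orderOf x) := by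
  refine ⟨?_, ⟨lm_totient, lm_sigma⟩, fun α d hα hd => expanding_pow hα hd, fun f b ρ N m w hρ hw hd => common_of_dvd hρ hw hd,
    fun b ρ N m hρ x hx => common_order hρ x hx⟩
  classical
  intro A hA f hf G d hG κ ρ b c hκ h1 hρ hb hc hcb
  obtain ⟨-, -, -, h4⟩ := AlmostAllOrders.result
  obtain ⟨E, hE1, hE2⟩ := h4 A hA
  have hA0 : 0 ≤ 1 - 1 / A := by
    have : 1 / A ≤ 1 := by
      rw [div_le_one (by linarith)]
      linarith
    linarith
  obtain ⟨N₀, hN₀⟩ := common_win_nat E hf hG hA0 hκ h1 hρ hb hc hcb (fun ε hε => by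
    obtain ⟨x0, hx0⟩ := hE1 ε hε
    refine ⟨(x0 : ℝ) + 1, fun X hX => ?_⟩
    have hX1 : (1 : ℝ) ≤ X := by exact_mod_cast hX
    have hXs : (1 : ℝ) ≤ (X : ℝ) ^ (1 - 1 / A + ε) := Real.one_le_rpow hX1 (by linarith)
    have hx0' : (0 : ℝ) ≤ x0 := Nat.cast_nonneg _
    rcases le_or_gt x0 X with h | h
    · have h5 := hx0 X h
      have h6 : (((Ioc 0 X).filter (fun t => t ∈ E)).card : ℝ) = (count E X : ℝ) := by
        unfold count
        congr!
      rw [h6]
      nlinarith
    · have h5 : (((Ioc 0 X).filter (fun t => t ∈ E)).card : ℝ) ≤ X := by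
        have h6 := Finset.card_filter_le (Ioc 0 X) (fun t => t ∈ E)
        rw [Nat.card_Ioc, Nat.sub_zero] at h6
        exact_mod_cast h6
      have h7 : (X : ℝ) ≤ x0 := by exact_mod_cast h.le
      nlinarith)
  refine ⟨N₀, fun N hN => le_trans ?_ (hN₀ N hN)⟩
  have hfin : {m : ℕ | 1 ≤ m ∧ m ≤ N ∧ ∃ w : ℕ, Common f b ρ N m w ∧
      ∃ n : ℕ, (n = 0 ∨ n ∈ E) ∧ |(n : ℝ) - G w| ≤ (w : ℝ) ^ κ}.Finite := by
    apply (Set.finite_Icc 1 N).subset
    intro m hm
    exact ⟨hm.1, hm.2.1⟩
  refine Nat.cast_le.2 (Set.ncard_le_ncard ?_ hfin)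
  rintro m ⟨g1, g2, g3⟩
  refine ⟨g1, g2, ?_⟩
  by_contra hcon
  push Not at hcon
  have hE : ∀ n : ℕ, Near f G κ b ρ N m n → n ∉ E := by
    rintro n ⟨w, hw, hn⟩ hnE
    exact absurd hn (not_le.2 (hcon w hw n (Or.inr hnE)))
  refine g3 (fun V _ H _ hH hr => ?_)
  obtain ⟨k1, k2⟩ := hE2 V H hH hr
  exact ⟨fun Γ hΓ => k1 Γ (fun v => hE _ (hΓ v)), fun hc' he hn => k2 hc' he (hE _ hn)⟩

end Pool.Agent.Results.MP_3bd889_lc.CommonFactors
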