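import Pool.Agent.U322.LR.GraphFin

/-!
# MP_3bd889_lc, Q1: the chromatic number of graphs with one-sided spectrum

`G` is a finite graph with adjacency matrix `A` of real rank `r`; `lam ≥ 0` and `k` are such that at
most `k` eigenvalues of `A` (with multiplicity) are below `-lam`, or at most `k` are above `lam`.
Then `log₂ χ(G) ≤ k log₂ (8 k + 9) + 2 log₂ (r + 1) + log₂ (1 + lam) + 7`.

So the bound of Q1 holds for all graphs in which `k` is polylogarithmic and `lam` quasi-polynomial
in the rank; the other end of the spectrum is arbitrary (as are the small eigenvalues).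

Idea of the proof (new; `Pool/Agent/U322/LR/Cluster.lean`, `Chi.lean`). Let `W` be a set of `n`
vertices, `n ≥ 128 lam r`, and `μ_i, v_i` the spectral data of the graph induced on `W`
(interlacing keeps the hypothesis). Keep the vertices `x` at which
`∑_{μ_i < -lam} |μ_i| v_i(x)²` is at most `4 √(k + 1)` and `∑_{-lam ≤ μ_i < 0} |μ_i| v_i(x)²` at
most `1/32`; by `∑ μ_i² ≤ n²` and by the rank these are at least `n / 2`. Sort them by the at most
`k` numbers `√|μ_i| v_i(x)`, `μ_i < -lam`, rounded to multiples of `1 / (2 √(k + 1))`, into
`(8 k + 9) ^ k` cells. For two vertices of one cell the form of `A` at `e_x - e_y` is `> -2`, so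
they are not adjacent: `W` has an independent subset with a share `1 / (2 (8 k + 9) ^ k)`.
For the other end take `J - A`: there the test vector `e_x + e_y - 2 e_z` shows that inside a cell
non-adjacency (or equality) is transitive, and the classes are at most `r + 1` by the rank.
Iterating over the at most `2 ^ r` types of vertices gives the colouring (library:
`TH815.LS.exists_rep`, `TH815.LS.colOn_of_large`).
-/

set_option autoImplicit false

namespace Pool.Agent.Results.MP_3bd889_lc.OneSidedSpectrum

open Finset

/-- Let `G` be a graph on a finite vertex set with adjacency matrix of real rank `r`, and let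
`lam ≥ 0`. If at most `k` eigenvalues are below `-lam`, or at most `k` are above `lam`, then
`log₂ χ(G) ≤ k log₂ (8 k + 9) + 2 log₂ (r + 1) + log₂ (1 + lam) + 7`. -/
theorem result (V : Type) [Fintype V] [DecidableEq V] (G : SimpleGraph V) [DecidableRel G.Adj]
    (hA : (G.adjMatrix ℝ).IsHermitian) (k : ℕ) (lam : ℝ) (hlam : 0 ≤ lam)
    (h : (univ.filter (fun i => hA.eigenvalues i < -lam)).card ≤ k ∨
      (univ.filter (fun i => lam < hA.eigenvalues i)).card ≤ k) :
    Real.logb 2 (G.chromaticNumber.toNat : ℝ) ≤
      k * Real.logb 2 (8 * k + 9) + 2 * Real.logb 2 ((G.adjMatrix ℝ).rank + 1) +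
        Real.logb 2 (1 + lam) + 7 :=
  Pool.Agent.U322.LR.adj_chi G hA k lam hlam h

end Pool.Agent.Results.MP_3bd889_lc.OneSidedSpectrum
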