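import Pool.Agent.U322.LR.GraphFin

/-!
# MP_3bd889_lc, Q1: the order of twin-free graphs with one-sided spectrum

`G` is a finite twin-free graph with adjacency matrix `A` of real rank `r ≥ 1`, and `lam ≥ 0`.
If at most `k` eigenvalues of `A` (with multiplicity) are below `-lam`, then `G` has at most
`(27 r)^(k+1) (k + 1 + 4 lam)²` vertices; if at most `k` are above `lam`, then `G` has at most
`(r + 1) (27 (r + 1))^(k+1) (k + 1 + 4 lam)²` vertices.

So the bound `O(2^(r/2))` of Kotlov and Lovász for the order of twin-free graphs, which gives the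
bound `log χ(G) = O(r)` of the problem file, becomes polynomial in the rank as soon as one end of
the spectrum has boundedly many eigenvalues, up to errors polynomial in the rank; for `k`
polylogarithmic and `lam` quasi-polynomial in `r` the order (hence every quantity bounded by it,
such as the chromatic number) is quasi-polynomial in `r`. Connectedness is not needed.

Idea of the proof (new; `Pool/Agent/U322/LR/Sauer.lean`, `Order.lean`, `Chi.lean`). The cells of
`Pool/Agent/Results/MP_3bd889_lc/OneSidedSpectrum.lean` give a set `Q` of vertices with a share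
`1 / (2 (8 k + 9)^k)` of all (for the upper end: `r + 1` times less) on which the adjacency is
constant. Its vertices are told apart by `r` vertices (a basis of the row space). If `Q` had more
than `∑_{i ≤ k} C(r, i) + t C(r, k + 1)` elements, `t = ⌊(k + 1 + 4 lam)² / 2^(k+1)⌋`, then a form
of the lemma of Sauer and Shelah with multiplicities gives `k + 1` vertices `e_1, ..., e_{k+1}`
such that each of the `2^(k+1)` patterns of adjacency to them occurs for more than `t` vertices of
`Q`. The `k + 1` Rademacher vectors `∑_y ± y` on `Q` (signs: adjacency to `e_j`) are orthogonal to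
each other and to the constants, the form of `A` vanishes on their span, and together with the
vectors `e_j` they span a space of dimension `k + 1` on which the form is below
`-lam · |v|²`; so `A` has `k + 1` eigenvalues below `-lam`.
-/

set_option autoImplicit false

namespace Pool.Agent.Results.MP_3bd889_lc.OrderBySpectrum

open Finset

/-- Let `G` be a twin-free graph (two different non-adjacent vertices have different
neighbourhoods) on a finite vertex set with adjacency matrix of real rank `r ≥ 1`, and let
`lam ≥ 0`, `k ≥ 0`.
(1) If at most `k` eigenvalues are below `-lam`, then `|V| ≤ (27 r)^(k+1) (k + 1 + 4 lam)²`.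
(2) If at most `k` eigenvalues are above `lam`, then
`|V| ≤ (r + 1) (27 (r + 1))^(k+1) (k + 1 + 4 lam)²`. -/
theorem result (V : Type) [Fintype V] [DecidableEq V] (G : SimpleGraph V) [DecidableRel G.Adj]
    (hA : (G.adjMatrix ℝ).IsHermitian)
    (htw : ∀ u v : V, u ≠ v → ¬ G.Adj u v → G.neighborSet u ≠ G.neighborSet v)
    (hr : 1 ≤ (G.adjMatrix ℝ).rank) (k : ℕ) (lam : ℝ) (hlam : 0 ≤ lam) :
    ((univ.filter (fun i => hA.eigenvalues i < -lam)).card ≤ k →
      (Fintype.card V : ℝ) ≤
        (27 * (G.adjMatrix ℝ).rank) ^ (k + 1) * ((k : ℝ) + 1 + 4 * lam) ^ 2) ∧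
    ((univ.filter (fun i => lam < hA.eigenvalues i)).card ≤ k →
      (Fintype.card V : ℝ) ≤ ((G.adjMatrix ℝ).rank + 1) *
        ((27 * ((G.adjMatrix ℝ).rank + 1)) ^ (k + 1) * ((k : ℝ) + 1 + 4 * lam) ^ 2)) := by
  obtain ⟨h1, h2⟩ := Pool.Agent.U322.LR.adj_order G hA htw hr lam hlam
  have hr' : (1 : ℝ) ≤ (G.adjMatrix ℝ).rank := by exact_mod_cast hr
  refine ⟨fun h => ?_, fun h => ?_⟩
  · refine (h1 _ rfl).trans ?_
    refine mul_le_mul ?_ ?_ (sq_nonneg _) (by positivity)
    · exact pow_le_pow_right₀ (by linarith) (by omega)
    · refine pow_le_pow_left₀ (by positivity) ?_ 2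
      have : ((univ.filter (fun i => hA.eigenvalues i < -lam)).card : ℝ) ≤ k := by exact_mod_cast h
      linarith
  · refine (h2 _ rfl).trans ?_
    refine mul_le_mul_of_nonneg_left ?_ (by positivity)
    refine mul_le_mul ?_ ?_ (sq_nonneg _) (by positivity)
    · exact pow_le_pow_right₀ (by linarith) (by omega)
    · refine pow_le_pow_left₀ (by positivity) ?_ 2
      have : ((univ.filter (fun i => lam < hA.eigenvalues i)).card : ℝ) ≤ k := by exact_mod_cast h
      linarith

end Pool.Agent.Results.MP_3bd889_lc.OrderBySpectrum
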