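import Pool.Agent.U278.VC.Prot

/-!
# Chromatic number and rank for graphs given by relations of small VC dimension

The vertices of the graph `G` are divided in `t` classes. In each class let the adjacency of `u ≠ v`
be an arbitrary Boolean function, which may also depend on `u` in an arbitrary way, of the answers of
`k` relations `f_i (u, v)` and of the converse relations `f_i (v, u)`, where the sum of the VC dimensions
of the `f_i` is at most `D`. Nothing is assumed about the edges between different classes. Then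

  `log χ(G) ≤ log t + 335 (D + 2) ^ 2 log r (log r + k + 1)`,

where `r > 1` is the real rank of the adjacency matrix. So the bound of the graph form of the log-rank
conjecture holds for all graphs with `D` and `k` polylogarithmic and `t` quasipolynomial in the rank.

Examples: graphs with neighbourhoods of VC dimension `D`; graphs given by `k` relations of sign rank at
most `s` (`D = k s`), such as `k` comparisons of scalar products in `ℝ ^ s`. As `f_i (u, v)` and
`f_i (v, u)` may both occur, the relations need not be symmetric: for instance every vertex `v` has a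
point `q_v` and a set `S_v`, out of a family of sets of VC dimension `D`, and `u`, `v` are adjacent if
`q_u ∈ S_v` and `q_v ∈ S_u`, or if one of the two holds. The VC dimension of the sets `{v | q_u ∈ S_v}` may
be exponential in `D`.

For comparison: the starting result OmittedSubgraph bounds `log χ(G)` by `40 m (log r) ^ 2` if some graph
with `m` vertices is not an induced subgraph of `G`. All graphs with fewer than `2 ^ (D + 1)` vertices
have neighbourhoods of VC dimension at most `D`, so that `m` is exponential in `D` here. The starting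
library (`R533/VC/Graph`) has the case of neighbourhoods of VC dimension `D` (`t = k = 1`).

Proof. The two-sided version of the packing argument in `U278/VC/Mix` (see
`MP_e5d384_lc.SmallVCDimension`) gives protocols for the adjacency within the classes, and the
transcripts on the diagonal are colours.
-/

set_option autoImplicit false

namespace Pool.Agent.Results.MP_3bd889_lc.SmallVCDimension

open Finset Pool.Agent.R533.VC Pool.Agent.U278.VC Pool.Agent.H630R2.LR

/-- The sets `{x | f (x, y)}`, `y` a vertex, have VC dimension at most `d`: if all `2 ^ m` patterns occur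
on some `m` vertices then `m ≤ d`. -/
def VC {V : Type} (f : V → V → Bool) (d : ℕ) : Prop :=
  ∀ (m : ℕ) (x : Fin m → V), (∀ S : Fin m → Bool, ∃ y, ∀ i, f (x i) y = S i) → m ≤ d

/-- one class of vertices -/
theorem one_class {V : Type} [Fintype V] (G : SimpleGraph V) [DecidableRel G.Adj]
    {W : Type} [Fintype W] (ι : W → V) (k D : ℕ)
    (f : Fin k → V → V → Bool) (d : Fin k → ℕ) (hf : ∀ i, VC (f i) (d i)) (hd : ∑ i, d i ≤ D)
    (g : V → (Fin k → Bool) → (Fin k → Bool) → Bool)
    (hG : ∀ u v : W, G.Adj (ι u) (ι v) ↔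
      g (ι u) (fun i => f i (ι u) (ι v)) (fun i => f i (ι v) (ι u)) = true) :
    ∃ c : ℕ, (G.comap ι).Colorable (2 ^ c) ∧ (c : ℝ) ≤ 58 * (D + 1) * (D + 1) *
      (Real.logb 2 ((G.adjMatrix ℝ).rank : ℝ) + 1) *
      (Real.logb 2 ((G.adjMatrix ℝ).rank : ℝ) + k + 1) := by
  classical
  set F : W → W → Bool := fun u v => decide (G.Adj (ι u) (ι v)) with hF
  have hgr : GrowthZ (fun (x y : W) (i : Fin k) => f i (ι x) (ι y)) D := by
    have h1 := growthZ_vec k (fun i (x y : W) => f i (ι x) (ι y)) d (fun i m x hS =>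
      hf i m (fun j => ι (x j)) fun S => by
        obtain ⟨y, hy⟩ := hS S
        exact ⟨ι y, hy⟩)
    exact fun m x P => (h1 m x P).trans (Nat.pow_le_pow_right (Nat.succ_pos m) hd)
  obtain ⟨c, hP, hc⟩ := proto_leaves F (fun _ => true) (fun _ _ => true) (fun _ _ => true) 0 k
    (fun _ x y i => f i (ι x) (ι y)) (fun _ x y i => f i (ι y) (ι x))
    (fun _ x z₁ z₂ => g (ι x) z₁ z₂) D D (fun _ => hgr) (fun _ => hgr) (by
      intro x y
      rw [hF]
      beta_reduce
      rw [Bool.eq_iff_iff, decide_eq_true_iff]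
      exact hG x y)
  refine ⟨c, colorable_of_proto (G.comap ι) F (fun u v => ?_) hP, ?_⟩
  · rw [SimpleGraph.comap_adj, hF]
    simp
  · have hrk : (comm F).rank ≤ (G.adjMatrix ℝ).rank := by
      have h1 : comm F = (G.adjMatrix ℝ).submatrix ι ι := by
        ext u v
        show (if F u v then (1 : ℝ) else 0) = if G.Adj (ι u) (ι v) then 1 else 0
        simp [hF]
      rw [h1]
      exact Matrix.rank_submatrix_le (G.adjMatrix ℝ) ι ι
    have hlog : Real.logb 2 ((comm F).rank : ℝ) ≤ Real.logb 2 ((G.adjMatrix ℝ).rank : ℝ) := by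
      rcases Nat.eq_zero_or_pos (comm F).rank with h0 | h0
      · rw [h0]
        simpa using logb_nonneg (G.adjMatrix ℝ).rank
      · exact Real.logb_le_logb_of_le (by norm_num) (by exact_mod_cast h0) (by exact_mod_cast hrk)
    have hl0 : 0 ≤ Real.logb 2 ((comm F).rank : ℝ) := logb_nonneg _
    refine hc.trans ?_
    have hk : (0 : ℝ) ≤ (k : ℝ) := Nat.cast_nonneg _
    have hl1 : 0 ≤ Real.logb 2 ((G.adjMatrix ℝ).rank : ℝ) := logb_nonneg _
    rw [Nat.cast_zero, add_zero]
    gcongr

/-- the bound, if the description of the adjacency is also correct for `u = v` -/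
theorem main {V : Type} [Fintype V] (G : SimpleGraph V) [DecidableRel G.Adj]
    (hr : 1 < (G.adjMatrix ℝ).rank) (t : ℕ) (p : V → Fin t) (k D : ℕ)
    (f : Fin t → Fin k → V → V → Bool) (d : Fin t → Fin k → ℕ)
    (hf : ∀ s i, VC (f s i) (d s i)) (hd : ∀ s, ∑ i, d s i ≤ D)
    (g : Fin t → V → (Fin k → Bool) → (Fin k → Bool) → Bool)
    (hG : ∀ u v, p u = p v → (G.Adj u v ↔
      g (p u) u (fun i => f (p u) i u v) (fun i => f (p u) i v u) = true)) :
    Real.log (G.chromaticNumber.toNat : ℝ) ≤
      Real.log t + 335 * ((D : ℝ) + 1) ^ 2 * Real.log ((G.adjMatrix ℝ).rank : ℝ) *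
        (Real.log ((G.adjMatrix ℝ).rank : ℝ) + k) := by
  classical
  set r := (G.adjMatrix ℝ).rank with hrdef
  set Λ : ℝ := Real.logb 2 (r : ℝ) with hΛ
  set M : ℝ := 58 * (D + 1) * (D + 1) * (Λ + 1) * (Λ + k + 1) with hM
  have hΛ0 : 0 ≤ Λ := logb_nonneg r
  have hM0 : 0 ≤ M := by positivity
  set N := ⌊M⌋₊ with hN
  -- colourings of the classes
  have hcls : ∀ s : Fin t, (G.comap (Subtype.val : {v : V // p v = s} → V)).Colorable (2 ^ N) := by
    intro s
    obtain ⟨c, h1, h2⟩ := one_class G (Subtype.val : {v : V // p v = s} → V) k D (f s) (d s) (hf s)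
      (hd s) (g s) (by
        rintro ⟨u, hu⟩ ⟨v, hv⟩
        have h3 := hG u v (hu.trans hv.symm)
        rw [hu] at h3
        exact h3)
    exact h1.mono (Nat.pow_le_pow_right (by norm_num) (Nat.le_floor h2))
  let C : ∀ s : Fin t, (G.comap (Subtype.val : {v : V // p v = s} → V)).Coloring (Fin (2 ^ N)) :=
    fun s => (hcls s).some
  have hcol : G.Coloring (Fin t × Fin (2 ^ N)) := by
    refine SimpleGraph.Coloring.mk (fun v => (p v, C (p v) ⟨v, rfl⟩)) ?_
    intro u v huv heq
    have h1 : p u = p v := congrArg Prod.fst heq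
    have h2 : C (p u) ⟨u, rfl⟩ = C (p v) ⟨v, rfl⟩ := congrArg Prod.snd heq
    have h3 : ∀ (s : Fin t) (hs : p u = s), C (p u) ⟨u, rfl⟩ = C s ⟨u, hs⟩ := by
      rintro s rfl
      rfl
    rw [h3 (p v) h1] at h2
    exact (C (p v)).valid (v := ⟨u, h1⟩) (w := ⟨v, rfl⟩) (by
      rw [SimpleGraph.comap_adj]
      exact huv) h2
  have hχ : G.chromaticNumber.toNat ≤ t * 2 ^ N := by
    have h1 : G.Colorable (t * 2 ^ N) := by
      have := hcol.colorable
      rwa [Fintype.card_prod, Fintype.card_fin, Fintype.card_fin] at this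
    have h2 : G.chromaticNumber ≤ ((t * 2 ^ N : ℕ) : ℕ∞) := h1.chromaticNumber_le
    exact (ENat.toNat_le_toNat h2 (ENat.natCast_ne_top _)).trans (ENat.toNat_natCast _).le
  have ht : 0 < t := by
    have hV : Nonempty V := by
      by_contra hV
      rw [not_nonempty_iff] at hV
      have h1 : (G.adjMatrix ℝ).rank ≤ Fintype.card V := Matrix.rank_le_card_width _
      rw [Fintype.card_eq_zero] at h1
      omega
    obtain ⟨v⟩ := hV
    exact (Nat.zero_le _).trans_lt (p v).2
  have ht' : (0 : ℝ) < t := by exact_mod_cast ht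
  have hl2 : (0.6931471803 : ℝ) < Real.log 2 := Real.log_two_gt_d9
  have hl2' : (0 : ℝ) < Real.log 2 := by linarith
  have hr2 : (2 : ℝ) ≤ r := by exact_mod_cast hr
  have hlr : Real.log 2 ≤ Real.log (r : ℝ) := Real.log_le_log (by norm_num) hr2
  have hlr0 : 0 < Real.log (r : ℝ) := hl2'.trans_le hlr
  have e1 : Λ * Real.log 2 = Real.log (r : ℝ) := by
    rw [hΛ, Real.logb, div_mul_cancel₀ _ hl2'.ne']
  have hΛ1 : 1 ≤ Λ := by
    by_contra hcon
    push Not at hcon
    nlinarith
  have hk0 : (0 : ℝ) ≤ k := Nat.cast_nonneg _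
  have hD0 : (0 : ℝ) ≤ D := Nat.cast_nonneg _
  -- the bound for one class
  have hone : M * Real.log 2 ≤ 335 * ((D : ℝ) + 1) ^ 2 * Real.log (r : ℝ) *
      (Real.log (r : ℝ) + k) := by
    have h1 : (Λ + 1) * (Λ + k + 1) ≤ (2 * Λ) * (2 * Λ + k) := by
      apply mul_le_mul <;> linarith
    have h2 : M * Real.log 2 ≤ 116 * ((D : ℝ) + 1) ^ 2 * Real.log (r : ℝ) * (2 * Λ + k) := by
      calc M * Real.log 2 = 58 * ((D : ℝ) + 1) ^ 2 * ((Λ + 1) * (Λ + k + 1)) * Real.log 2 := by
            rw [hM]; ring
        _ ≤ 58 * ((D : ℝ) + 1) ^ 2 * ((2 * Λ) * (2 * Λ + k)) * Real.log 2 := by gcongr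
        _ = 116 * ((D : ℝ) + 1) ^ 2 * (Λ * Real.log 2) * (2 * Λ + k) := by ring
        _ = _ := by rw [e1]
    have h3 : 2 * Λ ≤ 2.886 * Real.log (r : ℝ) := by
      rw [← e1]
      nlinarith
    have h4 : 2 * Λ + k ≤ 335 / 116 * (Real.log (r : ℝ) + k) := by linarith
    calc M * Real.log 2 ≤ 116 * ((D : ℝ) + 1) ^ 2 * Real.log (r : ℝ) * (2 * Λ + k) := h2
      _ ≤ 116 * ((D : ℝ) + 1) ^ 2 * Real.log (r : ℝ) * (335 / 116 * (Real.log (r : ℝ) + k)) := by
          gcongr
      _ = _ := by ring
  rcases Nat.eq_zero_or_pos G.chromaticNumber.toNat with h0 | h0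
  · rw [h0]
    simp only [Nat.cast_zero, Real.log_zero]
    have h1 : 0 ≤ Real.log (t : ℝ) := Real.log_natCast_nonneg t
    positivity
  · have h1 : Real.log (G.chromaticNumber.toNat : ℝ) ≤ Real.log ((t * 2 ^ N : ℕ) : ℝ) :=
      Real.log_le_log (by exact_mod_cast h0) (by exact_mod_cast hχ)
    have h2 : Real.log ((t * 2 ^ N : ℕ) : ℝ) = Real.log t + N * Real.log 2 := by
      push_cast
      rw [Real.log_mul ht'.ne' (by positivity), Real.log_pow]
    have h3 : (N : ℝ) * Real.log 2 ≤ M * Real.log 2 :=
      mul_le_mul_of_nonneg_right (Nat.floor_le hM0) hl2'.le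
    linarith

/-- The graph form of the log-rank conjecture for graphs given by relations of small VC dimension. -/
theorem result {V : Type} [Fintype V] (G : SimpleGraph V) [DecidableRel G.Adj]
    (hr : 1 < (G.adjMatrix ℝ).rank) (t : ℕ) (p : V → Fin t) (k D : ℕ)
    (f : Fin t → Fin k → V → V → Bool) (d : Fin t → Fin k → ℕ)
    (hf : ∀ s i, VC (f s i) (d s i)) (hd : ∀ s, ∑ i, d s i ≤ D)
    (g : Fin t → V → (Fin k → Bool) → (Fin k → Bool) → Bool)
    (hG : ∀ u v, u ≠ v → p u = p v → (G.Adj u v ↔
      g (p u) u (fun i => f (p u) i u v) (fun i => f (p u) i v u) = true)) :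
    Real.log (G.chromaticNumber.toNat : ℝ) ≤
      Real.log t + 335 * ((D : ℝ) + 2) ^ 2 * Real.log ((G.adjMatrix ℝ).rank : ℝ) *
        (Real.log ((G.adjMatrix ℝ).rank : ℝ) + k + 1) := by
  classical
  have h := main G hr t p (k + 1) (D + 1)
    (fun s => Fin.cons (fun u v => decide (u = v)) (f s)) (fun s => Fin.cons 1 (d s))
    (by
      intro s i
      refine Fin.cases ?_ (fun i => ?_) i
      · rw [Fin.cons_zero, Fin.cons_zero]
        intro m x hS
        by_contra hm
        push Not at hm
        obtain ⟨y, hy⟩ := hS fun _ => true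
        obtain ⟨z, hz⟩ := hS fun j => decide (j.1 = 0)
        have h0 := hy ⟨0, by omega⟩
        have h1 := hy ⟨1, hm⟩
        have h2 := hz ⟨0, by omega⟩
        have h3 := hz ⟨1, hm⟩
        simp only [decide_eq_true_eq] at h0 h1
        rw [h0] at h2
        rw [h1] at h3
        simp only [decide_true, decide_eq_true_eq, one_ne_zero, decide_false,
          decide_eq_false_iff_not] at h2 h3
        exact h3 h2
      · rw [Fin.cons_succ, Fin.cons_succ]
        exact hf s i)
    (by
      intro s
      rw [Fin.sum_univ_succ]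
      simp only [Fin.cons_zero, Fin.cons_succ]
      have := hd s
      omega)
    (fun s u z₁ z₂ => !(z₁ 0) && g s u (Fin.tail z₁) (Fin.tail z₂))
    (by
      intro u v huv
      by_cases he : u = v
      · subst he
        simp
      · rw [hG u v he huv]
        simp [he, Fin.tail_def])
  refine h.trans (le_of_eq ?_)
  push_cast
  ring

end Pool.Agent.Results.MP_3bd889_lc.SmallVCDimension
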